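import Mathlib

set_option autoImplicit false

open AlgebraicGeometry CategoryTheory Polynomial

namespace MotBS

/-- The spectrum of a field (or ring) as a scheme. -/
noncomputable abbrev pt (F : Type) [CommRing F] : Scheme.{0} := Spec (CommRingCat.of F)

/-- The complex projective line. -/
noncomputable def P1 : Scheme.{0} :=
  letI : GradedAlgebra (MvPolynomial.homogeneousSubmodule (Fin 2) ℂ) :=
    MvPolynomial.gradedAlgebra
  Proj (MvPolynomial.homogeneousSubmodule (Fin 2) ℂ)

/-- The structure morphism of the complex projective line. -/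
noncomputable def P1.toPt : P1 ⟶ pt ℂ :=
  letI : GradedAlgebra (MvPolynomial.homogeneousSubmodule (Fin 2) ℂ) :=
    MvPolynomial.gradedAlgebra
  Proj.toSpecZero (MvPolynomial.homogeneousSubmodule (Fin 2) ℂ) ≫
    Spec.map (CommRingCat.ofHom (algebraMap ℂ (MvPolynomial.homogeneousSubmodule (Fin 2) ℂ 0)))

/-- `X` is a smooth variety over the field `F` (smooth, separated, of finite type). -/
def IsSmoothVar (F : Type) [Field F] (X : Scheme.{0}) (f : X ⟶ pt F) : Prop :=
  Smooth f ∧ QuasiCompact f ∧ IsSeparated f

/-- The closed points of the affine line over a field `F`, i.e. the monic irreducible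
polynomials over `F`. -/
structure ClosedPoint (F : Type) [Field F] where
  /-- the polynomial -/
  poly : F[X]
  monic : poly.Monic
  irreducible : Irreducible poly

instance {F : Type} [Field F] (p : ClosedPoint F) : Fact (Irreducible p.poly) :=
  ⟨p.irreducible⟩

/-- Rational motivic cohomology `H X k j = H^k(X, ℚ(j))` (`= CH^j(X, 2j - k) ⊗ ℚ`), the
restriction maps for fields, the residues on affine lines and the pull-back of constant
classes. -/
structure MotData where
  /-- the groups `H^k(X, ℚ(j))` -/
  H : Scheme.{0} → ℤ → ℤ → Type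
  [grp : ∀ X k j, AddCommGroup (H X k j)]
  [mod : ∀ X k j, Module ℚ (H X k j)]
  /-- restriction along an extension of fields of characteristic zero -/
  res : ∀ {F E : Type} [Field F] [Field E] [CharZero F] (_ : F →+* E) (k j : ℤ),
    H (pt F) k j →ₗ[ℚ] H (pt E) k j
  /-- the residues on the affine line over a field `F` -/
  bdry : ∀ (F : Type) [Field F] [CharZero F] (k j : ℤ),
    H (pt (RatFunc F)) k j →ₗ[ℚ] DirectSum (ClosedPoint F)
      (fun p => H (pt (AdjoinRoot p.poly)) (k - 1) (j - 1))
  /-- pull-back of constant classes to a complex variety -/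
  pull : ∀ {X : Scheme.{0}} (_ : X ⟶ pt ℂ) (k j : ℤ), H (pt ℂ) k j →ₗ[ℚ] H X k j

attribute [instance] MotData.grp MotData.mod

namespace MotData

variable (T : MotData)

/-- Restriction to an extension field is injective (specialisation and transfer). -/
def ResInjective : Prop :=
  ∀ {F E : Type} [Field F] [Field E] [CharZero F] (f : F →+* E) (k j : ℤ),
    Function.Injective (T.res f k j)

/-- Continuity: every class comes from a finitely generated subfield. -/
def Continuity : Prop :=
  ∀ (E : Type) [Field E] [CharZero E] (k j : ℤ) (a : T.H (pt E) k j),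
    ∃ F : IntermediateField ℚ E, F.FG ∧ ∃ b : T.H (pt F) k j, T.res (algebraMap F E) k j b = a

/-- The residues on the affine line over `F` are jointly surjective. -/
def BdrySurjective : Prop :=
  ∀ (F : Type) [Field F] [CharZero F] (k j : ℤ), Function.Surjective (T.bdry F k j)

/-- The unramified classes over `F(t)` are the constant ones. -/
def BdryKer : Prop :=
  ∀ (F : Type) [Field F] [CharZero F] (k j : ℤ),
    LinearMap.ker (T.bdry F k j) = LinearMap.range (T.res (algebraMap F (RatFunc F)) k j)

/-- A nonempty complex variety has a complex point. -/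
def PullInjective : Prop :=
  ∀ (X : Scheme.{0}) (f : X ⟶ pt ℂ), IsSmoothVar ℂ X f → Nonempty X →
    ∀ k j : ℤ, Function.Injective (T.pull f k j)

/-- Projective bundle formula for the projective line. -/
def LineFormula : Prop :=
  ∀ k j : ℤ, Nonempty
    ((T.H P1 k j ⧸ LinearMap.range (T.pull P1.toPt k j)) ≃ₗ[ℚ] T.H (pt ℂ) (k - 2) (j - 1))

/-- In weights `j ≤ 0` there is no cohomology in negative degrees. -/
def LowWeight : Prop :=
  ∀ (F : Type) [Field F] [CharZero F] (k j : ℤ), k < 0 → j ≤ 0 → Subsingleton (T.H (pt F) k j)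

/-- Consequence of the coniveau spectral sequence. -/
def Coniveau : Prop :=
  ∀ (F : Type) [Field F] [CharZero F] (X : Scheme.{0}) (f : X ⟶ pt F),
    IsSmoothVar F X f → ∀ k j : ℤ,
    (∀ (x : X) (c : ℕ), ringKrullDim (X.presheaf.stalk x) = c →
      Subsingleton (T.H (pt (X.residueField x)) (k - 2 * c) (j - c))) →
    Subsingleton (T.H X k j)

end MotData

/-- The properties of rational motivic cohomology that are used. -/
structure IsMotivic (T : MotData) : Prop where
  res_injective : T.ResInjective
  exists_fg : T.Continuity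
  bdry_surjective : T.BdrySurjective
  bdry_ker : T.BdryKer
  pull_injective : T.PullInjective
  line : T.LineFormula
  low_weight : T.LowWeight
  coniveau : T.Coniveau

/-- `X` satisfies the Beilinson-Soule vanishing: `H^k(X, ℚ(j)) = 0` for all `k < 0` and `j`. -/
def BS (T : MotData) (X : Scheme.{0}) : Prop :=
  ∀ k j : ℤ, k < 0 → Subsingleton (T.H X k j)

/-- `X` satisfies the strong Beilinson-Soule vanishing: `H^k(X, ℚ(j)) = 0` for all `k ≤ 0` and
`j > 0`. -/
def StrongBS (T : MotData) (X : Scheme.{0}) : Prop :=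
  ∀ k j : ℤ, k ≤ 0 → 0 < j → Subsingleton (T.H X k j)

/-- The classes in `H^k(F(t), ℚ(j))` modulo those coming from `H^k(F, ℚ(j))`. -/
abbrev NewClasses (T : MotData) (F : Type) [Field F] [CharZero F] (k j : ℤ) : Type :=
  T.H (pt (RatFunc F)) k j ⧸ LinearMap.range (T.res (algebraMap F (RatFunc F)) k j)

/-- The field `ℚ(t_1, ..., t_n)`. -/
abbrev RatFuncs (n : ℕ) : Type := FractionRing (MvPolynomial (Fin n) ℚ)

/-- `P` is a class of smooth complex varieties with a nonempty member. -/
def IsClass (P : ∀ X : Scheme.{0}, (X ⟶ pt ℂ) → Prop) : Prop :=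
  (∀ X f, P X f → IsSmoothVar ℂ X f) ∧ ∃ X f, P X f ∧ Nonempty X

/-- The vanishing `V` holds for all members of the class `P`. -/
def ForClass (P : ∀ X : Scheme.{0}, (X ⟶ pt ℂ) → Prop) (V : Scheme.{0} → Prop) : Prop :=
  ∀ X f, P X f → V X

/-- The vanishing `V` holds for all smooth varieties over all fields of characteristic zero. -/
def ForAll (V : Scheme.{0} → Prop) : Prop :=
  ∀ (F : Type) [Field F] [CharZero F] (X : Scheme.{0}) (f : X ⟶ pt F), IsSmoothVar F X f → V X

/-- `H^k(Spec ℂ, ℚ(w)) = 0`. -/
def PointVanishing (T : MotData) (k w : ℤ) : Prop :=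
  Subsingleton (T.H (pt ℂ) k w)

/-- `H^{k-m}(F, ℚ(w-m)) = 0` for all `m ≥ 0` and all fields `F` of characteristic zero. -/
def FieldVanishing (T : MotData) (k w : ℤ) : Prop :=
  ∀ (m : ℕ) (F : Type) [Field F] [CharZero F], Subsingleton (T.H (pt F) (k - m) (w - m))

/-- `H^k(X, ℚ(w)) = 0` for some nonempty smooth complex variety `X`. -/
def OneVariety (T : MotData) (k w : ℤ) : Prop :=
  ∃ (X : Scheme.{0}) (f : X ⟶ pt ℂ), IsSmoothVar ℂ X f ∧ Nonempty X ∧ Subsingleton (T.H X k w)

/-- All classes in `H^{k+2}(P^1, ℚ(w+1))` are constant. -/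
def LineConstant (T : MotData) (k w : ℤ) : Prop :=
  Function.Surjective (T.pull P1.toPt (k + 2) (w + 1))

/-- All classes in `H^{k+1}(F(t), ℚ(w+1))` are constant. -/
def NoNewClasses (T : MotData) (F : Type) [Field F] [CharZero F] (k w : ℤ) : Prop :=
  Subsingleton (NewClasses T F (k + 1) (w + 1))

/-- `H^{k+1}(ℂ(t), ℚ(w+1))` modulo the constant classes has dimension less than the continuum. -/
def FewNewClasses (T : MotData) (k w : ℤ) : Prop :=
  Module.rank ℚ (NewClasses T ℂ (k + 1) (w + 1)) < Cardinal.continuum

end MotBS
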