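import Mathlib
import Pool.Agent.Helper98.BS.Defs

set_option autoImplicit false

open AlgebraicGeometry CategoryTheory Polynomial Cardinal

namespace MotBS

/-- Every countable field of characteristic zero embeds into `ℂ`. -/
theorem exists_hom_complex (F : Type) [Field F] [CharZero F] [Countable F] :
    Nonempty (F →+* ℂ) := by
  let R := MvPolynomial ℂ F
  let L := FractionRing R
  let K := AlgebraicClosure L
  have hR : #R = 𝔠 := by
    have h := MvPolynomial.cardinalMk_eq_max (σ := ℂ) (R := F)
    have hF : #F ≤ ℵ₀ := Cardinal.mk_le_aleph0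
    rw [show #R = _ from h, Cardinal.mk_complex]
    have h1 : #F ≤ 𝔠 := hF.trans Cardinal.aleph0_le_continuum
    rw [max_eq_right h1, max_eq_left Cardinal.aleph0_le_continuum]
  have hL : #L = 𝔠 := by
    rw [show #L = #R from Cardinal.mk_fractionRing R, hR]
  have hK : #K = 𝔠 := by
    apply le_antisymm
    · have h := Algebra.IsAlgebraic.cardinalMk_le_max L K
      rw [hL, max_eq_left Cardinal.aleph0_le_continuum] at h
      exact h
    · rw [← hL]
      exact Cardinal.mk_le_of_injective (algebraMap L K).injective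
  have hcF : CharZero L := by
    have : CharZero R := inferInstance
    exact charZero_of_injective_algebraMap (IsFractionRing.injective R L)
  have hcK : CharZero K := charZero_of_injective_algebraMap (algebraMap L K).injective
  have hlt : ℵ₀ < #K := by rw [hK]; exact Cardinal.aleph0_lt_continuum
  have heq : Nonempty (K ≃ ℂ) := by
    rw [← Cardinal.eq, hK, Cardinal.mk_complex]
  obtain ⟨e⟩ := IsAlgClosed.ringEquiv_of_equiv_of_charZero hlt heq
  exact ⟨(e : K →+* ℂ).comp ((algebraMap L K).comp ((algebraMap R L).comp MvPolynomial.C))⟩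

/-- The field generated by algebraically independent elements is a rational function field. -/
noncomputable def fieldEquiv {n : ℕ} {k E : Type} [Field k] [Field E] [Algebra k E]
    {x : Fin n → E} (hx : AlgebraicIndependent k x) :
    FractionRing (MvPolynomial (Fin n) k) ≃+* IntermediateField.adjoin k (Set.range x) :=
  hx.aevalEquivField.toRingEquiv

/-- A finitely generated field of characteristic zero is a residue field of the affine line over
some `ℚ(t_1, ..., t_n)`. -/
theorem exists_closedPoint (E : Type) [Field E] [CharZero E] [Algebra.EssFiniteType ℚ E] :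
    ∃ (n : ℕ) (p : ClosedPoint (RatFuncs n)), Nonempty (E →+* AdjoinRoot p.poly) := by
  obtain ⟨s, hs, hsep⟩ := exists_isTranscendenceBasis_and_isSeparable_of_perfectField ℚ E
  let n := Fintype.card s
  let e : Fin n ≃ s := (Fintype.equivFin s).symm
  let x : Fin n → E := fun i => (e i : E)
  have hx : AlgebraicIndependent ℚ x := hs.1.comp e e.injective
  have hr : Set.range x = (s : Set E) := by
    ext y
    constructor
    · rintro ⟨i, rfl⟩; exact (e i).2
    · intro hy; exact ⟨e.symm ⟨y, hy⟩, by simp [x]⟩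
  rw [← hr] at hsep
  let K0 := IntermediateField.adjoin ℚ (Set.range x)
  have hess : Algebra.EssFiniteType K0 E := Algebra.EssFiniteType.of_comp ℚ K0 E
  have hfin : Module.Finite K0 E := Algebra.finite_of_essFiniteType_of_isAlgebraic
  let σ : RatFuncs n ≃+* K0 := fieldEquiv hx
  let φ : RatFuncs n →+* E := (algebraMap K0 E).comp (σ : RatFuncs n →+* K0)
  let _ : Algebra (RatFuncs n) E := φ.toAlgebra
  have hfin' : FiniteDimensional (RatFuncs n) E := by
    refine Module.Finite.of_equiv_equiv (A₁ := K0) (B₁ := E) (A₂ := RatFuncs n) (B₂ := E)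
      σ.symm (RingEquiv.refl E) ?_
    ext y
    change φ (σ.symm y) = _
    simp [φ]
  have hsep' : Algebra.IsSeparable (RatFuncs n) E := inferInstance
  obtain ⟨α, hα⟩ := Field.exists_primitive_element (RatFuncs n) E
  have hint : IsIntegral (RatFuncs n) α := Algebra.IsIntegral.isIntegral α
  refine ⟨n, ⟨minpoly (RatFuncs n) α, minpoly.monic hint, minpoly.irreducible hint⟩, ⟨?_⟩⟩
  let g := (IntermediateField.adjoinRootEquivAdjoin (RatFuncs n) hint).symm
  let t := (IntermediateField.equivOfEq hα).symm
  let u := (IntermediateField.topEquiv (F := RatFuncs n) (E := E)).symm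
  exact (((u.trans t).trans g) : E →ₐ[RatFuncs n] AdjoinRoot (minpoly (RatFuncs n) α)).toRingHom

theorem countable_of_ess (E : Type) [Field E] [CharZero E] [Algebra.EssFiniteType ℚ E] :
    Countable E := by
  obtain ⟨n, p, ⟨f⟩⟩ := exists_closedPoint E
  have h1 : #(MvPolynomial (Fin n) ℚ) ≤ ℵ₀ := by
    refine (MvPolynomial.cardinalMk_le_max (σ := Fin n) (R := ℚ)).trans ?_
    simp
  have h2 : #(RatFuncs n) ≤ ℵ₀ := by
    rw [show #(RatFuncs n) = #(MvPolynomial (Fin n) ℚ) from Cardinal.mk_fractionRing _]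
    exact h1
  have h3 : #((RatFuncs n)[X]) ≤ ℵ₀ := by
    refine (Polynomial.cardinalMk_le_max (R := RatFuncs n)).trans ?_
    exact max_le h2 le_rfl
  have h4 : #(AdjoinRoot p.poly) ≤ ℵ₀ :=
    (Cardinal.mk_le_of_surjective AdjoinRoot.mk_surjective).trans h3
  rw [← Cardinal.mk_le_aleph0_iff]
  exact (Cardinal.mk_le_of_injective (RingHom.injective f)).trans h4

variable {T : MotData} (hT : IsMotivic T)

include hT

/-- Vanishing for finitely generated fields implies vanishing for all fields. -/
theorem sub_of_fg {k j : ℤ} (h : ∀ (F : Type) [Field F] [CharZero F] [Algebra.EssFiniteType ℚ F],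
    Subsingleton (T.H (pt F) k j)) (E : Type) [Field E]
    [CharZero E] : Subsingleton (T.H (pt E) k j) := by
  have key : ∀ a : T.H (pt E) k j, a = 0 := by
    intro a
    obtain ⟨F, hF, b, rfl⟩ := hT.exists_fg E k j a
    have hess : Algebra.EssFiniteType ℚ F := IntermediateField.essFiniteType_iff.2 hF
    have := h F
    rw [Subsingleton.elim b 0, map_zero]
  exact ⟨fun a b => by rw [key a, key b]⟩

/-- Vanishing passes to subfields. -/
theorem sub_of_hom {F E : Type} [Field F] [Field E] [CharZero F] (f : F →+* E) {k j : ℤ}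
    (h : Subsingleton (T.H (pt E) k j)) : Subsingleton (T.H (pt F) k j) :=
  (hT.res_injective f k j).subsingleton

/-- Vanishing over `ℂ` implies vanishing over all fields of characteristic zero. -/
theorem sub_of_complex {k j : ℤ} (h : Subsingleton (T.H (pt ℂ) k j)) (E : Type) [Field E]
    [CharZero E] : Subsingleton (T.H (pt E) k j) := by
  apply sub_of_fg hT
  intro F _ _ _
  have := countable_of_ess F
  obtain ⟨g⟩ := exists_hom_complex F
  exact sub_of_hom hT g h

/-- If all classes over `F(t)` are constant then the degree drops at all closed points. -/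
theorem sub_at (F : Type) [Field F] [CharZero F] {k j : ℤ}
    (h : Function.Surjective (T.res (algebraMap F (RatFunc F)) k j)) (p : ClosedPoint F) :
    Subsingleton (T.H (pt (AdjoinRoot p.poly)) (k - 1) (j - 1)) := by
  have hk : LinearMap.ker (T.bdry F k j) = ⊤ := by
    rw [hT.bdry_ker, LinearMap.range_eq_top.2 h]
  have hz : ∀ y, y = (0 : DirectSum (ClosedPoint F)
      (fun p => T.H (pt (AdjoinRoot p.poly)) (k - 1) (j - 1))) := by
    intro y
    obtain ⟨x, rfl⟩ := hT.bdry_surjective F k j y
    have : x ∈ LinearMap.ker (T.bdry F k j) := by rw [hk]; trivial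
    exact this
  have key : ∀ a : T.H (pt (AdjoinRoot p.poly)) (k - 1) (j - 1), a = 0 := by
    intro a
    classical
    have h0 := hz (DirectSum.of (fun p : ClosedPoint F =>
      T.H (pt (AdjoinRoot p.poly)) (k - 1) (j - 1)) p a)
    apply DirectSum.of_injective (β := fun p : ClosedPoint F =>
      T.H (pt (AdjoinRoot p.poly)) (k - 1) (j - 1)) p
    rw [h0, map_zero]
  exact ⟨fun a b => by rw [key a, key b]⟩

/-- The closed point `t = a`. -/
noncomputable def atPt {F : Type} [Field F] (a : F) : ClosedPoint F :=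
  ⟨X - C a, monic_X_sub_C a, irreducible_X_sub_C a⟩

/-- If all classes over `F(t)` are constant then the degree drops. -/
theorem sub_of_surj (F : Type) [Field F] [CharZero F] {k j : ℤ}
    (h : Function.Surjective (T.res (algebraMap F (RatFunc F)) k j)) :
    Subsingleton (T.H (pt F) (k - 1) (j - 1)) :=
  sub_of_hom hT (AdjoinRoot.of (atPt (0 : F)).poly) (sub_at hT F h (atPt 0))

theorem sub_step {k j : ℤ} (h : Subsingleton (T.H (pt ℂ) k j)) :
    Subsingleton (T.H (pt ℂ) (k - 1) (j - 1)) := by
  apply sub_of_surj hT ℂ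
  have := sub_of_complex hT h (RatFunc ℂ)
  exact fun y => ⟨0, Subsingleton.elim _ _⟩

theorem sub_iter {k w : ℤ} (h : Subsingleton (T.H (pt ℂ) k w)) (m : ℕ) :
    Subsingleton (T.H (pt ℂ) (k - m) (w - m)) := by
  induction m with
  | zero => simpa using h
  | succ m ih =>
    have := sub_step hT ih
    have e1 : (k - (m : ℤ) - 1) = k - ((m + 1 : ℕ) : ℤ) := by push_cast; ring
    have e2 : (w - (m : ℤ) - 1) = w - ((m + 1 : ℕ) : ℤ) := by push_cast; ring
    rwa [e1, e2] at this

theorem sub_all {k w : ℤ} (h : Subsingleton (T.H (pt ℂ) k w)) (m : ℕ) (F : Type) [Field F]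
    [CharZero F] : Subsingleton (T.H (pt F) (k - m) (w - m)) :=
  sub_of_complex hT (sub_iter hT h m) F

theorem surj_of (k w : ℤ) (h : Subsingleton (T.H (pt ℂ) k w)) (F : Type) [Field F]
    [CharZero F] : Function.Surjective (T.res (algebraMap F (RatFunc F)) (k + 1) (w + 1)) := by
  intro y
  have hs : ∀ p : ClosedPoint F,
      Subsingleton (T.H (pt (AdjoinRoot p.poly)) (k + 1 - 1) (w + 1 - 1)) := by
    intro p
    have : CharZero (AdjoinRoot p.poly) :=
      charZero_of_injective_ringHom (AdjoinRoot.of p.poly).injective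
    have e1 : k + 1 - 1 = k := by ring
    have e2 : w + 1 - 1 = w := by ring
    rw [e1, e2]
    exact sub_of_complex hT h _
  have hz : T.bdry F (k + 1) (w + 1) y = 0 := by
    apply DFinsupp.ext
    intro p
    exact @Subsingleton.elim _ (hs p) _ _
  have : y ∈ LinearMap.ker (T.bdry F (k + 1) (w + 1)) := hz
  rw [hT.bdry_ker] at this
  exact this

theorem of_surj_rat (k w : ℤ)
    (h : ∀ n, Function.Surjective
      (T.res (algebraMap (RatFuncs n) (RatFunc (RatFuncs n))) (k + 1) (w + 1))) :
    Subsingleton (T.H (pt ℂ) k w) := by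
  apply sub_of_fg hT
  intro F _ _ _
  obtain ⟨n, p, ⟨f⟩⟩ := exists_closedPoint F
  have := sub_at hT (RatFuncs n) (h n) p
  have e1 : k + 1 - 1 = k := by ring
  have e2 : w + 1 - 1 = w := by ring
  rw [e1, e2] at this
  exact sub_of_hom hT f this

theorem line_iff (k w : ℤ) :
    Function.Surjective (T.pull P1.toPt (k + 2) (w + 1)) ↔ Subsingleton (T.H (pt ℂ) k w) := by
  obtain ⟨e⟩ := hT.line (k + 2) (w + 1)
  have e1 : k + 2 - 2 = k := by ring
  have e2 : w + 1 - 1 = w := by ring
  constructor
  · intro h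
    have ht : LinearMap.range (T.pull P1.toPt (k + 2) (w + 1)) = ⊤ := LinearMap.range_eq_top.2 h
    have hs : Subsingleton
        (T.H P1 (k + 2) (w + 1) ⧸ LinearMap.range (T.pull P1.toPt (k + 2) (w + 1))) :=
      Submodule.Quotient.subsingleton_iff.2 ht
    have := e.symm.toEquiv.subsingleton
    rwa [e1, e2] at this
  · intro h
    have h' : Subsingleton (T.H (pt ℂ) (k + 2 - 2) (w + 1 - 1)) := by rwa [e1, e2]
    have := e.toEquiv.subsingleton
    exact LinearMap.range_eq_top.1 (Submodule.Quotient.subsingleton_iff.1 this)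

theorem of_rank (k w : ℤ) (h : Module.rank ℚ (NewClasses T ℂ (k + 1) (w + 1)) < 𝔠) :
    Subsingleton (T.H (pt ℂ) k w) := by
  by_contra hns
  rw [not_subsingleton_iff_nontrivial] at hns
  obtain ⟨x0, hx0⟩ := exists_ne (0 : T.H (pt ℂ) k w)
  have e1 : k + 1 - 1 = k := by ring
  have e2 : w + 1 - 1 = w := by ring
  obtain ⟨x, hx⟩ : ∃ x : T.H (pt ℂ) (k + 1 - 1) (w + 1 - 1), x ≠ 0 := by
    rw [e1, e2]; exact ⟨x0, hx0⟩
  classical
  let M := fun p : ClosedPoint ℂ => T.H (pt (AdjoinRoot p.poly)) (k + 1 - 1) (w + 1 - 1)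
  let v : ℂ → DirectSum (ClosedPoint ℂ) M := fun a =>
    DirectSum.of M (atPt a) (T.res (AdjoinRoot.of (atPt a).poly) (k + 1 - 1) (w + 1 - 1) x)
  have hinj : Function.Injective (atPt (F := ℂ)) := by
    intro a b hab
    have : (X - C a : ℂ[X]) = X - C b := congrArg ClosedPoint.poly hab
    have := sub_right_injective this
    exact C_injective this
  have hv : LinearIndependent ℚ v := by
    rw [linearIndependent_iff']
    intro s g hg a ha
    have h1 : (∑ i ∈ s, g i • v i) (atPt a) = 0 := by rw [hg]; rfl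
    rw [DFinsupp.finsetSum_apply, Finset.sum_eq_single a] at h1
    · have h2 : (g a • v a) (atPt a) =
          g a • (T.res (AdjoinRoot.of (atPt a).poly) (k + 1 - 1) (w + 1 - 1) x) := by
        change g a • (v a (atPt a)) = _
        congr 1
        exact DirectSum.of_eq_same _ _
      rw [h2] at h1
      rcases smul_eq_zero.1 h1 with h3 | h3
      · exact h3
      · exfalso
        apply hx
        apply hT.res_injective (AdjoinRoot.of (atPt a).poly)
        rw [h3, map_zero]
    · intro b _ hb
      change g b • (v b (atPt a)) = 0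
      have : v b (atPt a) = 0 := DirectSum.of_eq_of_ne _ _ _ (fun hh => hb (hinj hh).symm)
      rw [this, smul_zero]
    · intro h; exact absurd ha h
  have hc := hv.cardinal_le_rank
  rw [Cardinal.mk_complex] at hc
  have e := LinearMap.quotKerEquivOfSurjective (T.bdry ℂ (k + 1) (w + 1))
    (hT.bdry_surjective ℂ (k + 1) (w + 1))
  rw [hT.bdry_ker] at e
  have hr := e.rank_eq
  have : Module.rank ℚ (NewClasses T ℂ (k + 1) (w + 1)) =
      Module.rank ℚ (DirectSum (ClosedPoint ℂ) M) := hr
  rw [this] at h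
  exact absurd h (not_lt.2 hc)

omit hT in
theorem rank_of_surj (k w : ℤ)
    (hs : Function.Surjective (T.res (algebraMap ℂ (RatFunc ℂ)) (k + 1) (w + 1))) :
    Module.rank ℚ (NewClasses T ℂ (k + 1) (w + 1)) < 𝔠 := by
  have ht := LinearMap.range_eq_top.2 hs
  have : Subsingleton (NewClasses T ℂ (k + 1) (w + 1)) := Submodule.Quotient.subsingleton_iff.2 ht
  rw [rank_subsingleton']
  exact lt_of_lt_of_le Cardinal.aleph0_pos Cardinal.aleph0_le_continuum

omit hT in
theorem isSmoothVar_pt : IsSmoothVar ℂ (pt ℂ) (𝟙 _) :=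
  ⟨inferInstance, inferInstance, inferInstance⟩

omit hT in
theorem nonempty_pt : Nonempty (pt ℂ) :=
  ⟨(⟨⊥, Ideal.isPrime_bot⟩ : PrimeSpectrum ℂ)⟩

omit hT in
theorem charZero_residue (F : Type) [Field F] [CharZero F] (X : Scheme.{0}) (f : X ⟶ pt F)
    (x : X) : CharZero (X.residueField x) := by
  let φ : CommRingCat.of F ⟶ X.residueField x := Spec.preimage (X.fromSpecResidueField x ≫ f)
  exact charZero_of_injective_ringHom (φ.hom : F →+* X.residueField x).injective

theorem bs_of (h : ∀ w, Subsingleton (T.H (pt ℂ) (-1) w)) (F : Type) [Field F] [CharZero F]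
    (X : Scheme.{0}) (f : X ⟶ pt F) (h1 : IsSmoothVar F X f) : BS T X := by
  intro k j hk
  apply hT.coniveau F X f h1 k j
  intro x c _
  have hc : CharZero (X.residueField x) := charZero_residue F X f x
  obtain ⟨m, hm⟩ : ∃ m : ℕ, k - 2 * c = -1 - m := ⟨(-1 - (k - 2 * c)).toNat, by omega⟩
  have := sub_all hT (h (j - c + m)) m (X.residueField x)
  have e2 : j - c + m - m = j - c := by ring
  rw [e2] at this
  rw [hm]
  exact this

theorem strong_of (h : ∀ w, 0 < w → Subsingleton (T.H (pt ℂ) 0 w)) (F : Type) [Field F]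
    [CharZero F] (X : Scheme.{0}) (f : X ⟶ pt F) (h1 : IsSmoothVar F X f) : StrongBS T X := by
  intro k j hk hj
  apply hT.coniveau F X f h1 k j
  intro x c _
  have hc : CharZero (X.residueField x) := charZero_residue F X f x
  by_cases hjc : j - c ≤ 0
  · exact hT.low_weight (X.residueField x) _ _ (by omega) hjc
  · obtain ⟨m, hm⟩ : ∃ m : ℕ, k - 2 * c = 0 - m := ⟨(0 - (k - 2 * c)).toNat, by omega⟩
    have := sub_all hT (h (j - c + m) (by omega)) m (X.residueField x)
    have e2 : j - c + m - m = j - c := by ring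
    rw [e2] at this
    rw [hm]
    exact this

/-- The equivalent conditions in a fixed degree and weight. -/
theorem tfae_weight (k w : ℤ) : List.TFAE
    [PointVanishing T k w, FieldVanishing T k w, OneVariety T k w, LineConstant T k w,
     NoNewClasses T ℂ k w, FewNewClasses T k w, ∀ n : ℕ, NoNewClasses T (RatFuncs n) k w] := by
  have hS : ∀ (F : Type) [Field F] [CharZero F],
      (NoNewClasses T F k w ↔
        Function.Surjective (T.res (algebraMap F (RatFunc F)) (k + 1) (w + 1))) := by
    intro F _ _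
    unfold NoNewClasses
    rw [Submodule.Quotient.subsingleton_iff, LinearMap.range_eq_top]
  tfae_have 1 → 2 := fun h m F _ _ => sub_all hT h m F
  tfae_have 2 → 1 := fun h => by
    have := h 0 ℂ
    simpa [PointVanishing] using this
  tfae_have 1 → 3 := fun h => ⟨pt ℂ, 𝟙 _, isSmoothVar_pt, nonempty_pt, h⟩
  tfae_have 3 → 1 := fun ⟨X, f, h1, h2, h3⟩ => (hT.pull_injective X f h1 h2 k w).subsingleton
  tfae_have 1 ↔ 4 := (line_iff hT k w).symm
  tfae_have 1 → 5 := fun h => (hS ℂ).2 (surj_of hT k w h ℂ)
  tfae_have 5 → 6 := fun h => rank_of_surj k w ((hS ℂ).1 h)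
  tfae_have 6 → 1 := of_rank hT k w
  tfae_have 1 → 7 := fun h n => (hS (RatFuncs n)).2 (surj_of hT k w h (RatFuncs n))
  tfae_have 7 → 1 := fun h => of_surj_rat hT k w (fun n => (hS (RatFuncs n)).1 (h n))
  tfae_finish

/-- Beilinson-Soule vanishing, all weights together. -/
theorem tfae_all (P : ∀ X : Scheme.{0}, (X ⟶ pt ℂ) → Prop) (hP : IsClass P) : List.TFAE
    [ForClass P (BS T), ForAll (BS T), ∀ w : ℤ, PointVanishing T (-1) w] := by
  obtain ⟨hP, hne⟩ := hP
  tfae_have 2 → 1 := fun h X f hX => h ℂ X f (hP X f hX)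
  tfae_have 1 → 3 := by
    intro h w
    obtain ⟨X, f, hX, hXne⟩ := hne
    have := h X f hX (-1) w (by norm_num)
    exact (hT.pull_injective X f (hP X f hX) hXne (-1) w).subsingleton
  tfae_have 3 → 2 := fun h F _ _ X f hX => bs_of hT h F X f hX
  tfae_finish

/-- Strong Beilinson-Soule vanishing, all weights together. -/
theorem tfae_strong (P : ∀ X : Scheme.{0}, (X ⟶ pt ℂ) → Prop) (hP : IsClass P) : List.TFAE
    [ForClass P (StrongBS T), ForAll (StrongBS T), ∀ w > 0, PointVanishing T 0 w] := by
  obtain ⟨hP, hne⟩ := hP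
  tfae_have 2 → 1 := fun h X f hX => h ℂ X f (hP X f hX)
  tfae_have 1 → 3 := by
    intro h w hw
    obtain ⟨X, f, hX, hXne⟩ := hne
    have := h X f hX 0 w le_rfl hw
    exact (hT.pull_injective X f (hP X f hX) hXne 0 w).subsingleton
  tfae_have 3 → 2 := fun h F _ _ X f hX => strong_of hT h F X f hX
  tfae_finish

end MotBS
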